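import Pool.Agent.N713.MS.Cn

/-!
Project MS (helper912), part MS12, third file: the functions close to `1`.
-/

set_option autoImplicit false

namespace Pool.Agent.N713.MS

open Finset Filter
open Pool.Agent.W78.GA (Qd nm ball mem_ball nm_cast nm_castR nm_mul nm_pow nm_zero nm_eq_zero nm_pos
  nm_posR one_le_nm)
open Pool.Agent.N912.MS (Gi CMR Pr1 sq bx2 SqA PP2 Pret S_PRET2)

open scoped Classical

/-- uniform mean value over squares -/
def HM (g : Gi → ℝ) (m : ℝ) : Prop := ∀ ε : ℝ, 0 < ε → ∃ L₀ : ℕ, ∀ L : ℕ, L₀ ≤ L → ∀ z : Gi,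
  |∑ u ∈ sq z L, g u - m * (L : ℝ) ^ 2| ≤ ε * (L : ℝ) ^ 2

theorem HM_dvd (w : Gi) (hw : w ≠ 0) :
    HM (fun u => if w ∣ u then (1 : ℝ) else 0) (1 / nm w) := by
  intro ε hε
  refine ⟨⌈2 / ε⌉₊, fun L hL z => ?_⟩
  have h1 : 2 / ε ≤ (L : ℝ) := (Nat.le_ceil _).trans (by exact_mod_cast hL)
  rw [div_le_iff₀ hε] at h1
  have h2 := count2 w hw z L
  have h3 : 1 / (nm w : ℝ) * (L : ℝ) ^ 2 = (L : ℝ) ^ 2 / nm w := by ring
  rw [h3]
  refine h2.trans ?_
  have h4 : (0 : ℝ) ≤ L := Nat.cast_nonneg _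
  nlinarith

theorem HM_add {g h : Gi → ℝ} {m n : ℝ} (hg : HM g m) (hh : HM h n) :
    HM (fun u => g u + h u) (m + n) := by
  intro ε hε
  obtain ⟨L₁, h1⟩ := hg (ε / 2) (by positivity)
  obtain ⟨L₂, h2⟩ := hh (ε / 2) (by positivity)
  refine ⟨max L₁ L₂, fun L hL z => ?_⟩
  have h3 := h1 L ((le_max_left _ _).trans hL) z
  have h4 := h2 L ((le_max_right _ _).trans hL) z
  rw [sum_add_distrib]
  have h5 : ∑ u ∈ sq z L, g u + ∑ u ∈ sq z L, h u - (m + n) * (L : ℝ) ^ 2 =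
      (∑ u ∈ sq z L, g u - m * (L : ℝ) ^ 2) + (∑ u ∈ sq z L, h u - n * (L : ℝ) ^ 2) := by ring
  rw [h5]
  refine (abs_add_le _ _).trans ?_
  linarith

theorem HM_smul {g : Gi → ℝ} {m : ℝ} (c : ℝ) (hg : HM g m) : HM (fun u => c * g u) (c * m) := by
  intro ε hε
  obtain ⟨L₁, h1⟩ := hg (ε / (|c| + 1)) (by positivity)
  refine ⟨L₁, fun L hL z => ?_⟩
  have h3 := h1 L hL z
  rw [← mul_sum]
  have h5 : c * ∑ u ∈ sq z L, g u - c * m * (L : ℝ) ^ 2 =
      c * (∑ u ∈ sq z L, g u - m * (L : ℝ) ^ 2) := by ring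
  rw [h5, abs_mul]
  have h6 : |c| * (ε / (|c| + 1)) ≤ ε := by
    rw [mul_div_assoc', div_le_iff₀ (by positivity)]
    nlinarith [abs_nonneg c]
  calc |c| * |∑ u ∈ sq z L, g u - m * (L : ℝ) ^ 2| ≤ |c| * (ε / (|c| + 1) * (L : ℝ) ^ 2) :=
        mul_le_mul_of_nonneg_left h3 (abs_nonneg c)
    _ = (|c| * (ε / (|c| + 1))) * (L : ℝ) ^ 2 := by ring
    _ ≤ ε * (L : ℝ) ^ 2 := mul_le_mul_of_nonneg_right h6 (by positivity)

theorem HM_zero : HM (fun _ => 0) 0 := by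
  intro ε hε
  refine ⟨0, fun L _ z => ?_⟩
  rw [sum_const_zero, zero_mul, sub_zero, abs_zero]
  positivity

theorem HM_sum {ι : Type*} (s : Finset ι) (g : ι → Gi → ℝ) (m : ι → ℝ)
    (h : ∀ k ∈ s, HM (g k) (m k)) : HM (fun u => ∑ k ∈ s, g k u) (∑ k ∈ s, m k) := by
  induction s using Finset.induction_on with
  | empty => simpa using HM_zero
  | insert a s ha ih =>
    rw [sum_insert ha]
    have h1 : (fun u => ∑ k ∈ insert a s, g k u) = fun u => g a u + ∑ k ∈ s, g k u := by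
      funext u
      rw [sum_insert ha]
    rw [h1]
    exact HM_add (h a (mem_insert_self _ _)) (ih fun k hk => h k (mem_insert_of_mem hk))

/-- the truncated factor of one prime -/
noncomputable def fac (a : ℝ) (π : Gi) (J : ℕ) (u : Gi) : ℝ :=
  1 + ∑ k ∈ range J, (a ^ (k + 1) - a ^ k) * (if π ^ (k + 1) ∣ u then (1 : ℝ) else 0)

/-- the periodic approximation -/
noncomputable def hS (f : Gi → ℝ) (S : Finset Gi) (J : ℕ) (u : Gi) : ℝ :=
  ∏ π ∈ S, fac (f π) π J u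

/-- its mean value -/
noncomputable def mS (f : Gi → ℝ) (S : Finset Gi) (J : ℕ) : ℝ :=
  ∏ π ∈ S, (1 + ∑ k ∈ range J, (f π ^ (k + 1) - f π ^ k) / (nm π : ℝ) ^ (k + 1))

theorem HM_ind (f : Gi → ℝ) (J : ℕ) (S : Finset Gi) : (∀ π ∈ S, Pr1 π) → ∀ w : Gi, w ≠ 0 →
    (∀ π ∈ S, ¬ π ∣ w) →
    HM (fun u => (if w ∣ u then (1 : ℝ) else 0) * hS f S J u) (1 / nm w * mS f S J) := by
  induction S using Finset.induction_on with
  | empty =>
    intro _ w hw _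
    have h1 : (fun u => (if w ∣ u then (1 : ℝ) else 0) * hS f ∅ J u) =
        fun u => if w ∣ u then (1 : ℝ) else 0 := by
      funext u
      unfold hS
      rw [prod_empty, mul_one]
    rw [h1]
    unfold mS
    rw [prod_empty, mul_one]
    exact HM_dvd w hw
  | insert π S hπS ih =>
    intro hP w hw hnd
    have hπ := hP π (mem_insert_self _ _)
    have hPS : ∀ ρ ∈ S, Pr1 ρ := fun ρ hρ => hP ρ (mem_insert_of_mem hρ)
    have hndS : ∀ ρ ∈ S, ¬ ρ ∣ w := fun ρ hρ => hnd ρ (mem_insert_of_mem hρ)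
    have hπw : ¬ π ∣ w := hnd π (mem_insert_self _ _)
    have h0 := ih hPS w hw hndS
    have h1 : ∀ k ∈ range J, HM (fun u => (f π ^ (k + 1) - f π ^ k) *
        ((if w * π ^ (k + 1) ∣ u then (1 : ℝ) else 0) * hS f S J u))
        ((f π ^ (k + 1) - f π ^ k) * (1 / nm (w * π ^ (k + 1)) * mS f S J)) := by
      intro k _
      refine HM_smul _ (ih hPS _ (mul_ne_zero hw (pow_ne_zero _ hπ.1.ne_zero)) ?_)
      intro ρ hρ hd
      rcases (hPS ρ hρ).1.dvd_or_dvd hd with h2 | h2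
      · exact hndS ρ hρ h2
      · have h3 := pr1_dvd (hPS ρ hρ) hπ ((hPS ρ hρ).1.dvd_of_dvd_pow h2)
        exact hπS (h3 ▸ hρ)
    have h2 := HM_add h0 (HM_sum (range J) _ _ h1)
    have hfun : (fun u => (if w ∣ u then (1 : ℝ) else 0) * hS f (insert π S) J u) =
        fun u => (if w ∣ u then (1 : ℝ) else 0) * hS f S J u +
          ∑ k ∈ range J, (f π ^ (k + 1) - f π ^ k) *
            ((if w * π ^ (k + 1) ∣ u then (1 : ℝ) else 0) * hS f S J u) := by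
      funext u
      have e1 : hS f (insert π S) J u = fac (f π) π J u * hS f S J u := by
        unfold hS
        rw [prod_insert hπS]
      have e2 : ∀ k : ℕ, (if w * π ^ (k + 1) ∣ u then (1 : ℝ) else 0) =
          (if w ∣ u then (1 : ℝ) else 0) * (if π ^ (k + 1) ∣ u then (1 : ℝ) else 0) := by
        intro k
        by_cases h3 : w ∣ u
        · rw [if_pos h3, one_mul]
          by_cases h4 : π ^ (k + 1) ∣ u
          · rw [if_pos h4, if_pos]
            obtain ⟨v, rfl⟩ := h3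
            exact mul_dvd_mul_left w (hπ.1.pow_dvd_of_dvd_mul_left _ hπw h4)
          · rw [if_neg h4, if_neg fun h5 => h4 ((dvd_mul_left _ _).trans h5)]
        · rw [if_neg h3, zero_mul, if_neg fun h5 => h3 ((dvd_mul_right _ _).trans h5)]
      rw [e1, fac, add_mul, one_mul, mul_add, sum_mul, mul_sum]
      congr 1
      refine sum_congr rfl fun k _ => ?_
      rw [e2 k]
      ring
    have hval : 1 / (nm w : ℝ) * mS f (insert π S) J = 1 / nm w * mS f S J +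
        ∑ k ∈ range J, (f π ^ (k + 1) - f π ^ k) * (1 / nm (w * π ^ (k + 1)) * mS f S J) := by
      have e1 : mS f (insert π S) J =
          (1 + ∑ k ∈ range J, (f π ^ (k + 1) - f π ^ k) / (nm π : ℝ) ^ (k + 1)) * mS f S J := by
        unfold mS
        rw [prod_insert hπS]
      rw [e1, add_mul, one_mul, mul_add, sum_mul, mul_sum]
      congr 1
      refine sum_congr rfl fun k _ => ?_
      rw [nm_mul, nm_pow]
      push_cast
      have h3 : (nm w : ℝ) ≠ 0 := (nm_posR hD hw).ne'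
      have h4 : (nm π : ℝ) ≠ 0 := (nm_posR hD hπ.1.ne_zero).ne'
      field_simp
    rw [hfun, hval]
    exact h2

theorem HM_hS (f : Gi → ℝ) (J : ℕ) (S : Finset Gi) (hS' : ∀ π ∈ S, Pr1 π) :
    HM (hS f S J) (mS f S J) := by
  have h := HM_ind f J S hS' 1 one_ne_zero fun π hπ hd =>
    (hS' π hπ).1.not_isUnit (isUnit_of_dvd_one hd)
  have h1 : (fun u => (if (1 : Gi) ∣ u then (1 : ℝ) else 0) * hS f S J u) = hS f S J := by
    funext u
    rw [if_pos (one_dvd u), one_mul]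
  rw [h1, nm_one, Nat.cast_one, div_one, one_mul] at h
  exact h

/-- the limit of the mean values -/
theorem mS_lim {f : Gi → ℝ} (hf : CMR f) (S : Finset Gi) (hS' : ∀ π ∈ S, Pr1 π) :
    Tendsto (mS f S) atTop (nhds (∏ π ∈ S, ((nm π : ℝ) - 1) / ((nm π : ℝ) - f π))) := by
  unfold mS
  refine tendsto_finsetProd _ fun π hπ => ?_
  have hN : (2 : ℝ) ≤ nm π := by exact_mod_cast two_le_nm (hS' π hπ).1
  have hN0 : (0 : ℝ) < nm π := by linarith
  have hfa := abs_le.1 (hf.bd π)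
  have hq : |f π / nm π| < 1 := by
    rw [abs_div, abs_of_pos hN0, div_lt_one hN0]
    linarith [hf.bd π]
  have h1 := (hasSum_geometric_of_abs_lt_one hq).tendsto_sum_nat
  have h2 : Tendsto (fun J => 1 + (f π - 1) / nm π * ∑ k ∈ range J, (f π / nm π) ^ k) atTop
      (nhds (1 + (f π - 1) / nm π * (1 - f π / nm π)⁻¹)) := (h1.const_mul _).const_add _
  have h3 : 1 + (f π - 1) / nm π * (1 - f π / nm π)⁻¹ =
      ((nm π : ℝ) - 1) / ((nm π : ℝ) - f π) := by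
    have h4 : (nm π : ℝ) - f π ≠ 0 := by
      have : (0 : ℝ) < (nm π : ℝ) - f π := by linarith [hfa.2]
      exact this.ne'
    have h5 : 1 - f π / nm π = ((nm π : ℝ) - f π) / nm π := by field_simp
    rw [h5, inv_div]
    field_simp
    ring
  rw [h3] at h2
  refine h2.congr fun J => ?_
  congr 1
  rw [mul_sum]
  refine sum_congr rfl fun k _ => ?_
  rw [div_pow, pow_succ, pow_succ]
  field_simp

/-! ### The approximation -/

theorem tel (a : ℝ) (v J : ℕ) : 1 + ∑ k ∈ range J, (a ^ (k + 1) - a ^ k) *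
    (if k + 1 ≤ v then (1 : ℝ) else 0) = a ^ min v J := by
  induction J with
  | zero => simp
  | succ J ih =>
    rw [sum_range_succ, ← add_assoc, ih]
    by_cases h : J + 1 ≤ v
    · rw [if_pos h, mul_one, min_eq_right (by omega), min_eq_right h]
      ring
    · rw [if_neg h, mul_zero, add_zero, min_eq_left (by omega), min_eq_left (by omega)]

theorem fac_eq (a : ℝ) {π : Gi} (hπ : Prime π) (J : ℕ) {u : Gi} (hu : u ≠ 0) :
    fac a π J u = a ^ min (multiplicity π u) J := by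
  rw [← tel, fac]
  congr 1
  refine sum_congr rfl fun k _ => ?_
  congr 1
  have h := (FiniteMultiplicity.of_prime_left hπ hu).pow_dvd_iff_le_multiplicity (k := k + 1)
  by_cases h1 : k + 1 ≤ multiplicity π u
  · rw [if_pos h1, if_pos (h.2 h1)]
  · rw [if_neg h1, if_neg fun h2 => h1 (h.1 h2)]

theorem fac_zero (a : ℝ) (π : Gi) (J : ℕ) : fac a π J 0 = a ^ J := by
  unfold fac
  have h : ∀ k ∈ range J, (a ^ (k + 1) - a ^ k) * (if π ^ (k + 1) ∣ (0 : Gi) then (1 : ℝ) else 0) =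
      a ^ (k + 1) - a ^ k := fun k _ => by rw [if_pos (dvd_zero _), mul_one]
  rw [sum_congr rfl h, sum_range_sub (fun k => a ^ k), pow_zero]
  ring

theorem prod_bd {ι : Type*} (T : Finset ι) (a : ι → ℝ) (ha : ∀ i ∈ T, |a i| ≤ 1) :
    |∏ i ∈ T, a i| ≤ 1 := by
  rw [abs_prod]
  exact prod_le_one (fun i _ => abs_nonneg _) ha

theorem prod_sub {ι : Type*} (T : Finset ι) (a b : ι → ℝ) (ha : ∀ i ∈ T, |a i| ≤ 1)
    (hb : ∀ i ∈ T, |b i| ≤ 1) : |∏ i ∈ T, a i - ∏ i ∈ T, b i| ≤ ∑ i ∈ T, |a i - b i| := by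
  induction T using Finset.induction_on with
  | empty => simp
  | insert i T hi ih =>
    rw [prod_insert hi, prod_insert hi, sum_insert hi]
    have ha' : ∀ j ∈ T, |a j| ≤ 1 := fun j hj => ha j (mem_insert_of_mem hj)
    have hb' : ∀ j ∈ T, |b j| ≤ 1 := fun j hj => hb j (mem_insert_of_mem hj)
    have h1 : a i * ∏ j ∈ T, a j - b i * ∏ j ∈ T, b j =
        (a i - b i) * ∏ j ∈ T, a j + b i * (∏ j ∈ T, a j - ∏ j ∈ T, b j) := by ring
    rw [h1]
    refine (abs_add_le _ _).trans ?_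
    rw [abs_mul, abs_mul]
    have h2 := prod_bd T a ha'
    have h3 := ih ha' hb'
    have h4 := hb i (mem_insert_self _ _)
    have h5 := abs_nonneg (a i - b i)
    have h6 := abs_nonneg (∏ j ∈ T, a j - ∏ j ∈ T, b j)
    have h7 : |a i - b i| * |∏ j ∈ T, a j| ≤ |a i - b i| * 1 :=
      mul_le_mul_of_nonneg_left h2 h5
    have h8 : |b i| * |∏ j ∈ T, a j - ∏ j ∈ T, b j| ≤ 1 * |∏ j ∈ T, a j - ∏ j ∈ T, b j| :=
      mul_le_mul_of_nonneg_right h4 h6
    linarith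

theorem pow_bd {a : ℝ} (ha : |a| ≤ 1) (v : ℕ) : |a ^ v| ≤ 1 := by
  rw [abs_pow]
  exact pow_le_one₀ (abs_nonneg a) ha

theorem pow_sub {a : ℝ} (ha : |a| ≤ 1) (v : ℕ) : |a ^ v - 1| ≤ v * (1 - a) := by
  induction v with
  | zero => simp
  | succ v ih =>
    have h1 : a ^ (v + 1) - 1 = (a ^ v - 1) + a ^ v * (a - 1) := by ring
    rw [h1]
    refine (abs_add_le _ _).trans ?_
    rw [abs_mul]
    have h2 := pow_bd ha v
    have h3 : |a - 1| = 1 - a := by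
      rw [abs_sub_comm]
      exact abs_of_nonneg (by linarith [(abs_le.1 ha).2])
    rw [h3]
    have h4 : 0 ≤ 1 - a := by linarith [(abs_le.1 ha).2]
    push_cast
    nlinarith [mul_le_mul_of_nonneg_right h2 h4]

theorem mult_le {π u : Gi} (hπ : Prime π) (hu : u ≠ 0) {B : ℕ} (hB : nm u ≤ B) :
    multiplicity π u ≤ B := by
  have h1 : π ^ multiplicity π u ∣ u := pow_multiplicity_dvd _ _
  obtain ⟨v, hv⟩ := h1
  have hv0 : v ≠ 0 := by
    rintro rfl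
    rw [mul_zero] at hv
    exact hu hv
  have h2 : nm u = nm π ^ multiplicity π u * nm v := by
    conv_lhs => rw [hv]
    rw [nm_mul, nm_pow]
  have h3 : 1 ≤ nm v := nm_pos hD hv0
  have h4 : 2 ^ multiplicity π u ≤ nm π ^ multiplicity π u :=
    Nat.pow_le_pow_left (two_le_nm hπ) _
  have h5 : multiplicity π u < 2 ^ multiplicity π u := Nat.lt_two_pow_self
  have h6 : nm π ^ multiplicity π u ≤ nm u := by
    rw [h2]
    exact Nat.le_mul_of_pos_right _ h3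
  omega

theorem mult_sum {π u : Gi} (hπ : Prime π) (hu : u ≠ 0) {B : ℕ} (hB : nm u ≤ B) :
    (multiplicity π u : ℝ) = ∑ j ∈ range B, (if π ^ (j + 1) ∣ u then (1 : ℝ) else 0) := by
  have h1 := mult_le hπ hu hB
  have h2 : ∀ j ∈ range B, (if π ^ (j + 1) ∣ u then (1 : ℝ) else 0) =
      if j < multiplicity π u then (1 : ℝ) else 0 := by
    intro j _
    have h := (FiniteMultiplicity.of_prime_left hπ hu).pow_dvd_iff_le_multiplicity (k := j + 1)
    by_cases h3 : j < multiplicity π u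
    · rw [if_pos h3, if_pos (h.2 h3)]
    · rw [if_neg h3, if_neg fun h4 => h3 (h.1 h4)]
  rw [sum_congr rfl h2, sum_boole]
  congr 1
  have h3 : (range B).filter (fun j => j < multiplicity π u) = range (multiplicity π u) := by
    ext j
    rw [mem_filter, mem_range, mem_range]
    omega
  rw [h3, card_range]

/-- the difference at one point -/
theorem pt_bd {f : Gi → ℝ} (hf : CMR f) {S T : Finset Gi} (hST : S ⊆ T) (hT : ∀ π ∈ T, Pr1 π)
    (J : ℕ) {u : Gi} (hu : u ≠ 0) {B : ℕ} (hB : nm u ≤ B) (hT' : ∀ π, Pr1 π → π ∣ u → π ∈ T) :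
    |f u - hS f S J u| ≤
      ∑ π ∈ T \ S, ∑ j ∈ range B, (1 - f π) * (if π ^ (j + 1) ∣ u then (1 : ℝ) else 0) +
      ∑ π ∈ S, 2 * (if π ^ (J + 1) ∣ u then (1 : ℝ) else 0) := by
  have h1 := f_prod hf u hu T hT hT'
  have h2 : hS f S J u = ∏ π ∈ T, if π ∈ S then f π ^ min (multiplicity π u) J else 1 := by
    rw [← prod_filter]
    have h3 : T.filter (fun π => π ∈ S) = S := by
      ext π
      rw [mem_filter]
      exact ⟨fun h => h.2, fun h => ⟨hST h, h⟩⟩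
    rw [h3]
    exact prod_congr rfl fun π hπ => fac_eq (f π) (hT π (hST hπ)).1 J hu
  rw [h1, h2]
  refine (prod_sub T _ _ (fun π _ => pow_bd (hf.bd π) _) (fun π _ => ?_)).trans ?_
  · by_cases h : π ∈ S
    · rw [if_pos h]
      exact pow_bd (hf.bd π) _
    · rw [if_neg h, abs_one]
  rw [← sum_sdiff hST]
  refine add_le_add (sum_le_sum fun π hπ => ?_) (sum_le_sum fun π hπ => ?_)
  · rw [Finset.mem_sdiff] at hπ
    rw [if_neg hπ.2, ← mul_sum, ← mult_sum (hT π hπ.1).1 hu hB]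
    refine (pow_sub (hf.bd π) _).trans (le_of_eq (mul_comm _ _))
  · rw [if_pos hπ]
    have h := (FiniteMultiplicity.of_prime_left (hT π (hST hπ)).1 hu).pow_dvd_iff_le_multiplicity
      (k := J + 1)
    by_cases h3 : J + 1 ≤ multiplicity π u
    · rw [if_pos (h.2 h3), mul_one]
      refine (abs_sub _ _).trans ?_
      linarith [pow_bd (hf.bd π) (multiplicity π u), pow_bd (hf.bd π) (min (multiplicity π u) J)]
    · rw [min_eq_left (by omega), sub_self, abs_zero]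
      split_ifs <;> norm_num

/-- the difference on a box -/
theorem box_bd {f : Gi → ℝ} (hf : CMR f) {S T : Finset Gi} (hST : S ⊆ T) (hT : ∀ π ∈ T, Pr1 π)
    (J R : ℕ) (hTR : ∀ π, Pr1 π → nm π ≤ 2 * R ^ 2 → π ∈ T) :
    ∑ u ∈ bx2 R, |f u - hS f S J u| ≤ 2 + 36 * (R : ℝ) ^ 2 * ∑ π ∈ T \ S, (1 - f π) / nm π +
      36 * (R : ℝ) ^ 2 * ∑ π ∈ S, 1 / (nm π : ℝ) ^ (J + 1) := by
  set B : ℕ := 2 * R ^ 2 with hB
  have h0 : ∑ u ∈ bx2 R, |f u - hS f S J u| ≤ 2 +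
      ∑ u ∈ (bx2 R).filter (fun u => u ≠ 0), |f u - hS f S J u| := by
    rw [← sum_filter_add_sum_filter_not (bx2 R) (fun u : Gi => u ≠ 0), add_comm]
    refine add_le_add ?_ le_rfl
    have h1 : (bx2 R).filter (fun u : Gi => ¬ u ≠ 0) ⊆ {0} := by
      intro u hu
      rw [mem_singleton]
      exact not_not.1 (mem_filter.1 hu).2
    refine (sum_le_sum_of_subset_of_nonneg h1 fun u _ _ => abs_nonneg _).trans ?_
    rw [sum_singleton]
    refine (abs_sub _ _).trans ?_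
    have h2 : |hS f S J 0| ≤ 1 := by
      unfold hS
      refine prod_bd _ _ fun π _ => ?_
      rw [fac_zero]
      exact pow_bd (hf.bd π) _
    linarith [hf.bd 0]
  have hcnt : ∀ w : Gi, w ≠ 0 → ∑ u ∈ (bx2 R).filter (fun u => u ≠ 0),
      (if w ∣ u then (1 : ℝ) else 0) ≤ 18 * (R : ℝ) ^ 2 / nm w := by
    intro w hw
    rw [sum_boole, filter_filter]
    exact count3 w hw R
  have h1 : ∑ u ∈ (bx2 R).filter (fun u => u ≠ 0), |f u - hS f S J u| ≤
      ∑ u ∈ (bx2 R).filter (fun u => u ≠ 0),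
        (∑ π ∈ T \ S, ∑ j ∈ range B, (1 - f π) * (if π ^ (j + 1) ∣ u then (1 : ℝ) else 0) +
          ∑ π ∈ S, 2 * (if π ^ (J + 1) ∣ u then (1 : ℝ) else 0)) := by
    refine sum_le_sum fun u hu => ?_
    rw [mem_filter] at hu
    have h2 := nm_le_bx2 hu.1
    refine pt_bd hf hST hT J hu.2 (B := B) h2 fun π hπ hd => hTR π hπ ?_
    refine le_trans ?_ h2
    obtain ⟨v, hv⟩ := hd
    have hv0 : v ≠ 0 := by
      rintro rfl
      rw [mul_zero] at hv
      exact hu.2 hv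
    rw [hv, nm_mul]
    exact Nat.le_mul_of_pos_right _ (nm_pos hD hv0)
  have h2 : ∑ u ∈ (bx2 R).filter (fun u => u ≠ 0),
        (∑ π ∈ T \ S, ∑ j ∈ range B, (1 - f π) * (if π ^ (j + 1) ∣ u then (1 : ℝ) else 0) +
          ∑ π ∈ S, 2 * (if π ^ (J + 1) ∣ u then (1 : ℝ) else 0)) =
      ∑ π ∈ T \ S, ∑ j ∈ range B, (1 - f π) * ∑ u ∈ (bx2 R).filter (fun u => u ≠ 0),
        (if π ^ (j + 1) ∣ u then (1 : ℝ) else 0) +
      ∑ π ∈ S, 2 * ∑ u ∈ (bx2 R).filter (fun u => u ≠ 0),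
        (if π ^ (J + 1) ∣ u then (1 : ℝ) else 0) := by
    rw [sum_add_distrib, sum_comm, sum_comm (t := S)]
    congr 1
    · refine sum_congr rfl fun π _ => ?_
      rw [sum_comm]
      exact sum_congr rfl fun j _ => (mul_sum _ _ _).symm
    · exact sum_congr rfl fun π _ => (mul_sum _ _ _).symm
  have h3 : ∑ π ∈ T \ S, ∑ j ∈ range B, (1 - f π) * ∑ u ∈ (bx2 R).filter (fun u => u ≠ 0),
        (if π ^ (j + 1) ∣ u then (1 : ℝ) else 0) ≤
      36 * (R : ℝ) ^ 2 * ∑ π ∈ T \ S, (1 - f π) / nm π := by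
    rw [mul_sum]
    refine sum_le_sum fun π hπ => ?_
    have hπP := hT π (mem_sdiff.1 hπ).1
    have hN : (2 : ℝ) ≤ nm π := by exact_mod_cast two_le_nm hπP.1
    have hN0 : (0 : ℝ) < nm π := by linarith
    have hf1 : 0 ≤ 1 - f π := by linarith [(abs_le.1 (hf.bd π)).2]
    calc ∑ j ∈ range B, (1 - f π) * ∑ u ∈ (bx2 R).filter (fun u => u ≠ 0),
          (if π ^ (j + 1) ∣ u then (1 : ℝ) else 0)
        ≤ ∑ j ∈ range B, (1 - f π) * (18 * (R : ℝ) ^ 2 / nm π * (1 / 2) ^ j) := by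
          refine sum_le_sum fun j _ => mul_le_mul_of_nonneg_left ?_ hf1
          refine (hcnt _ (pow_ne_zero _ hπP.1.ne_zero)).trans ?_
          rw [nm_pow]
          push_cast
          have h4 : (1 / (nm π : ℝ)) ^ j ≤ (1 / 2 : ℝ) ^ j :=
            pow_le_pow_left₀ (by positivity) (one_div_le_one_div_of_le (by norm_num) hN) j
          have h5 : 18 * (R : ℝ) ^ 2 / (nm π : ℝ) ^ (j + 1) =
              18 * (R : ℝ) ^ 2 / nm π * (1 / (nm π : ℝ)) ^ j := by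
            rw [pow_succ (nm π : ℝ) j, div_pow, one_pow]
            field_simp
          rw [h5]
          exact mul_le_mul_of_nonneg_left h4 (by positivity)
      _ = (1 - f π) * (18 * (R : ℝ) ^ 2 / nm π) * ∑ j ∈ range B, (1 / (2 : ℝ)) ^ j := by
          rw [mul_sum]
          exact sum_congr rfl fun j _ => by ring
      _ ≤ (1 - f π) * (18 * (R : ℝ) ^ 2 / nm π) * 2 :=
          mul_le_mul_of_nonneg_left (sum_geometric_two_le B) (by positivity)
      _ = 36 * (R : ℝ) ^ 2 * ((1 - f π) / nm π) := by ring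
  have h4 : ∑ π ∈ S, 2 * ∑ u ∈ (bx2 R).filter (fun u => u ≠ 0),
        (if π ^ (J + 1) ∣ u then (1 : ℝ) else 0) ≤
      36 * (R : ℝ) ^ 2 * ∑ π ∈ S, 1 / (nm π : ℝ) ^ (J + 1) := by
    rw [mul_sum]
    refine sum_le_sum fun π hπ => ?_
    have h5 := hcnt (π ^ (J + 1)) (pow_ne_zero _ (hT π (hST hπ)).1.ne_zero)
    rw [nm_pow] at h5
    push_cast at h5
    calc 2 * ∑ u ∈ (bx2 R).filter (fun u => u ≠ 0), (if π ^ (J + 1) ∣ u then (1 : ℝ) else 0)
        ≤ 2 * (18 * (R : ℝ) ^ 2 / (nm π : ℝ) ^ (J + 1)) :=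
          mul_le_mul_of_nonneg_left h5 (by norm_num)
      _ = 36 * (R : ℝ) ^ 2 * (1 / (nm π : ℝ) ^ (J + 1)) := by ring
  rw [h2] at h1
  linarith

/-- the primes in the product -/
noncomputable def SS (x : ℕ) : Finset Gi := (ball 0 1 x).filter Pr1

theorem mem_SS {x : ℕ} {π : Gi} : π ∈ SS x ↔ Pr1 π ∧ nm π ≤ x := by
  unfold SS
  rw [mem_filter, mem_ball hD, Nat.cast_le]
  constructor
  · rintro ⟨⟨_, h⟩, h'⟩
    exact ⟨h', h⟩
  · rintro ⟨h, h'⟩
    exact ⟨⟨nm_pos hD h.1.ne_zero, h'⟩, h⟩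

theorem PP2_eq (f : Gi → ℝ) (x : ℕ) :
    PP2 f x = ∏ z ∈ SS x, ((nm z : ℝ) - 1) / ((nm z : ℝ) - f z) := rfl

theorem factor_bd {f : Gi → ℝ} (hf : CMR f) {π : Gi} (hπ : Pr1 π) :
    0 ≤ ((nm π : ℝ) - 1) / ((nm π : ℝ) - f π) ∧ ((nm π : ℝ) - 1) / ((nm π : ℝ) - f π) ≤ 1 := by
  have hN : (2 : ℝ) ≤ nm π := by exact_mod_cast two_le_nm hπ.1
  have hf1 := (abs_le.1 (hf.bd π)).2
  have h1 : (0 : ℝ) < (nm π : ℝ) - f π := by linarith
  exact ⟨div_nonneg (by linarith) h1.le, (div_le_one h1).2 (by linarith)⟩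

theorem PP2_lim {f : Gi → ℝ} (hf : CMR f) : ∃ μ, Tendsto (PP2 f) atTop (nhds μ) := by
  have hanti : Antitone (PP2 f) := by
    intro x y hxy
    have hsub : SS x ⊆ SS y := fun π hπ => mem_SS.2 ⟨(mem_SS.1 hπ).1, (mem_SS.1 hπ).2.trans hxy⟩
    rw [PP2_eq, PP2_eq, ← prod_sdiff hsub]
    have h1 : ∏ z ∈ SS y \ SS x, ((nm z : ℝ) - 1) / ((nm z : ℝ) - f z) ≤ 1 :=
      prod_le_one (fun π hπ => (factor_bd hf (mem_SS.1 (mem_sdiff.1 hπ).1).1).1)
        fun π hπ => (factor_bd hf (mem_SS.1 (mem_sdiff.1 hπ).1).1).2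
    have h2 : 0 ≤ ∏ z ∈ SS x, ((nm z : ℝ) - 1) / ((nm z : ℝ) - f z) :=
      prod_nonneg fun π hπ => (factor_bd hf (mem_SS.1 hπ).1).1
    nlinarith
  refine ⟨_, tendsto_atTop_ciInf hanti ⟨0, ?_⟩⟩
  rintro _ ⟨x, rfl⟩
  rw [PP2_eq]
  exact prod_nonneg fun π hπ => (factor_bd hf (mem_SS.1 hπ).1).1

/-- the assembly -/
theorem asm {f h : Gi → ℝ} {μ m ε : ℝ} {R L : ℕ} (hε : 0 < ε) (hR1' : (1 : ℝ) ≤ R)
    (hbox' : ∑ u ∈ bx2 (R + L), |f u - h u| ≤ (3 / 8) * ε * (R : ℝ) ^ 2)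
    (hL : ∀ z, |∑ u ∈ sq z L, h u - m * (L : ℝ) ^ 2| ≤ ε / 72 * (L : ℝ) ^ 2)
    (hmμ : |m - μ| ≤ ε / 36) :
    ∑ z ∈ bx2 R, |∑ u ∈ sq z L, (f u - μ)| ≤ ε * (L : ℝ) ^ 2 * (R : ℝ) ^ 2 := by
  have hcard : ((bx2 R).card : ℝ) ≤ 9 * (R : ℝ) ^ 2 := by
    rw [card_bx2]
    push_cast
    nlinarith
  have hL2 : (0 : ℝ) ≤ (L : ℝ) ^ 2 := by positivity
  set c : ℝ := ε / 72 * (L : ℝ) ^ 2 + ε / 36 * (L : ℝ) ^ 2 with hc
  have hc0 : 0 ≤ c := by positivity
  have hpt : ∀ z ∈ bx2 R, |∑ u ∈ sq z L, (f u - μ)| ≤ ∑ u ∈ sq z L, |f u - h u| + c := by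
    intro z _
    have h1 : ∑ u ∈ sq z L, (f u - μ) = ∑ u ∈ sq z L, (f u - h u) +
        ((∑ u ∈ sq z L, h u - m * (L : ℝ) ^ 2) + (m - μ) * (L : ℝ) ^ 2) := by
      rw [sum_sub_distrib, sum_sub_distrib, sum_const, card_sq, nsmul_eq_mul]
      push_cast
      ring
    rw [h1]
    refine (abs_add_le _ _).trans (add_le_add (abs_sum_le_sum_abs _ _) ?_)
    refine (abs_add_le _ _).trans (add_le_add (hL z) ?_)
    rw [abs_mul, abs_of_nonneg hL2]
    exact mul_le_mul_of_nonneg_right hmμ hL2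
  have hs1 : ∑ z ∈ bx2 R, ∑ u ∈ sq z L, |f u - h u| ≤
      (L : ℝ) ^ 2 * ((3 / 8) * ε * (R : ℝ) ^ 2) :=
    (sum_box (fun u => |f u - h u|) (fun _ => abs_nonneg _) R L).trans
      (mul_le_mul_of_nonneg_left hbox' hL2)
  have hs2 : ∑ _z ∈ bx2 R, c ≤ 9 * (R : ℝ) ^ 2 * c := by
    rw [sum_const, nsmul_eq_mul]
    exact mul_le_mul_of_nonneg_right hcard hc0
  have hs3 : ∑ z ∈ bx2 R, |∑ u ∈ sq z L, (f u - μ)| ≤
      ∑ z ∈ bx2 R, ∑ u ∈ sq z L, |f u - h u| + ∑ _z ∈ bx2 R, c := by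
    rw [← sum_add_distrib]
    exact sum_le_sum hpt
  have hs4 : 9 * (R : ℝ) ^ 2 * c = (3 / 8) * ε * ((L : ℝ) ^ 2 * (R : ℝ) ^ 2) := by
    rw [hc]
    ring
  have hs5 : 0 ≤ ε * ((L : ℝ) ^ 2 * (R : ℝ) ^ 2) := by positivity
  have hs6 : (L : ℝ) ^ 2 * ((3 / 8) * ε * (R : ℝ) ^ 2) =
      (3 / 8) * ε * ((L : ℝ) ^ 2 * (R : ℝ) ^ 2) := by ring
  have hs7 : ε * (L : ℝ) ^ 2 * (R : ℝ) ^ 2 = ε * ((L : ℝ) ^ 2 * (R : ℝ) ^ 2) := by ring
  rw [hs7]
  linarith

theorem pret2 : S_PRET2 := by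
  intro f hf hP
  obtain ⟨μ, hμ⟩ := PP2_lim hf
  refine ⟨μ, hμ, fun ε hε => ?_⟩
  -- the primes
  obtain ⟨s, hs⟩ := (summable_iff_vanishing_norm.1 hP) (ε / 1152) (by positivity)
  have hx1 : ∀ᶠ x : ℕ in atTop, |PP2 f x - μ| ≤ ε / 72 := by
    have := Metric.tendsto_atTop.1 hμ (ε / 72) (by positivity)
    obtain ⟨x₀, hx₀⟩ := this
    filter_upwards [eventually_ge_atTop x₀] with x hx
    have := hx₀ x hx
    rw [Real.dist_eq] at this
    exact this.le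
  obtain ⟨x, hx1, hx2⟩ := (hx1.and (eventually_ge_atTop (s.sup fun z => nm z))).exists
  have hSP : ∀ π ∈ SS x, Pr1 π := fun π hπ => (mem_SS.1 hπ).1
  have htail : ∀ T : Finset Gi, (∀ π ∈ T, Pr1 π) → SS x ⊆ T →
      ∑ π ∈ T \ SS x, (1 - f π) / nm π ≤ ε / 1152 := by
    intro T hT _
    have h1 : Disjoint (T \ SS x) s := by
      rw [Finset.disjoint_left]
      intro π hπ hπs
      rw [Finset.mem_sdiff] at hπ
      refine hπ.2 (mem_SS.2 ⟨hT π hπ.1, le_trans ?_ hx2⟩)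
      exact Finset.le_sup (f := fun z => nm z) hπs
    have h2 := hs _ h1
    have h3 : ∑ π ∈ T \ SS x, (1 - f π) / (nm π : ℝ) =
        ∑ π ∈ T \ SS x, (if Pr1 π then (1 - f π) / (nm π : ℝ) else 0) :=
      sum_congr rfl fun π hπ => by rw [if_pos (hT π (mem_sdiff.1 hπ).1)]
    rw [h3]
    exact (le_abs_self _).trans h2.le
  -- the exponent
  have hJ1 : ∀ᶠ J : ℕ in atTop, |mS f (SS x) J - PP2 f x| ≤ ε / 72 := by
    have h1 := mS_lim hf (SS x) hSP
    rw [← PP2_eq] at h1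
    obtain ⟨J₀, hJ₀⟩ := Metric.tendsto_atTop.1 h1 (ε / 72) (by positivity)
    filter_upwards [eventually_ge_atTop J₀] with J hJ
    have := hJ₀ J hJ
    rw [Real.dist_eq] at this
    exact this.le
  have hJ2 : ∀ᶠ J : ℕ in atTop, ∑ π ∈ SS x, 1 / (nm π : ℝ) ^ (J + 1) ≤ ε / 1152 := by
    have h1 : Tendsto (fun J : ℕ => ∑ π ∈ SS x, 1 / (nm π : ℝ) ^ (J + 1)) atTop
        (nhds (∑ π ∈ SS x, (0 : ℝ))) := by
      refine tendsto_finsetSum _ fun π hπ => ?_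
      have hN : (2 : ℝ) ≤ nm π := by exact_mod_cast two_le_nm (hSP π hπ).1
      have h2 : Tendsto (fun J : ℕ => (1 / (nm π : ℝ)) ^ (J + 1)) atTop (nhds 0) := by
        refine (tendsto_pow_atTop_nhds_zero_of_lt_one (by positivity) ?_).comp
          (tendsto_add_atTop_nat 1)
        rw [div_lt_one (by linarith)]
        linarith
      refine h2.congr fun J => ?_
      rw [one_div, inv_pow, one_div]
    rw [sum_const_zero] at h1
    filter_upwards [h1.eventually (gt_mem_nhds (show (0 : ℝ) < ε / 1152 by positivity))] with J hJ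
    exact hJ.le
  obtain ⟨J, hJ1, hJ2⟩ := (hJ1.and hJ2).exists
  set h : Gi → ℝ := hS f (SS x) J with hh
  set m : ℝ := mS f (SS x) J with hm
  obtain ⟨L₀, hL₀⟩ := HM_hS f J (SS x) hSP (ε / 72) (by positivity)
  refine ⟨L₀, fun L hL => ⟨max L (⌈16 / ε⌉₊ + 1), fun R hR => ?_⟩⟩
  have hRL : L ≤ R := (le_max_left _ _).trans hR
  have hR1 : ⌈16 / ε⌉₊ + 1 ≤ R := (le_max_right _ _).trans hR
  have hRε : 16 / ε ≤ (R : ℝ) := (Nat.le_ceil _).trans (by exact_mod_cast (by omega))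
  have hR1' : (1 : ℝ) ≤ R := by
    have : 1 ≤ R := by omega
    exact_mod_cast this
  set T : Finset Gi := SS (max x (2 * (R + L) ^ 2)) with hT
  have hTP : ∀ π ∈ T, Pr1 π := fun π hπ => (mem_SS.1 hπ).1
  have hST : SS x ⊆ T := fun π hπ =>
    mem_SS.2 ⟨(mem_SS.1 hπ).1, (mem_SS.1 hπ).2.trans (le_max_left _ _)⟩
  have hTR : ∀ π, Pr1 π → nm π ≤ 2 * (R + L) ^ 2 → π ∈ T := fun π h1 h2 =>
    mem_SS.2 ⟨h1, h2.trans (le_max_right _ _)⟩
  have hbox := box_bd hf hST hTP J (R + L) hTR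
  have ht := htail T hTP hST
  have hRLs : ((R + L : ℕ) : ℝ) ^ 2 ≤ 4 * (R : ℝ) ^ 2 := by
    have h1 : ((R + L : ℕ) : ℝ) ≤ 2 * R := by
      push_cast
      have : (L : ℝ) ≤ R := by exact_mod_cast hRL
      linarith
    have h2 : (0 : ℝ) ≤ ((R + L : ℕ) : ℝ) := Nat.cast_nonneg _
    nlinarith
  have hbox' : ∑ u ∈ bx2 (R + L), |f u - h u| ≤ (3 / 8) * ε * (R : ℝ) ^ 2 := by
    have h1 : 36 * ((R + L : ℕ) : ℝ) ^ 2 * ∑ π ∈ T \ SS x, (1 - f π) / (nm π : ℝ) ≤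
        36 * (4 * (R : ℝ) ^ 2) * (ε / 1152) := by
      refine mul_le_mul (by linarith) ht ?_ (by positivity)
      refine sum_nonneg fun π hπ => div_nonneg ?_ (Nat.cast_nonneg _)
      linarith [(abs_le.1 (hf.bd π)).2]
    have h2 : 36 * ((R + L : ℕ) : ℝ) ^ 2 * ∑ π ∈ SS x, 1 / (nm π : ℝ) ^ (J + 1) ≤
        36 * (4 * (R : ℝ) ^ 2) * (ε / 1152) := by
      refine mul_le_mul (by linarith) hJ2 (sum_nonneg fun π _ => by positivity) (by positivity)
    have h3 : (2 : ℝ) ≤ ε / 8 * (R : ℝ) ^ 2 := by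
      rw [div_le_iff₀ hε] at hRε
      nlinarith
    linarith
  have hmμ : |m - μ| ≤ ε / 36 := by
    have h1 : m - μ = (m - PP2 f x) + (PP2 f x - μ) := by ring
    rw [h1]
    refine (abs_add_le _ _).trans ?_
    linarith
  exact asm hε hR1' hbox' (hL₀ L hL) hmμ

end Pool.Agent.N713.MS
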