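import Pool.Agent.N912.MS.Stm
import Pool.Agent.W78.GA.Basic

/-!
Project MS (helper912), part MS12, first file: arithmetic of the Gaussian integers `Qd 0 1`.
-/

set_option autoImplicit false

namespace Pool.Agent.N713.MS

open Finset Filter
open Pool.Agent.W78.GA (Qd nm ball mem_ball nm_cast nm_castR nm_mul nm_pow nm_zero nm_eq_zero nm_pos
  nm_posR one_le_nm)
open Pool.Agent.N912.MS (Gi CMR Pr1)

theorem hD : (0 : ℤ) ^ 2 < 4 * 1 := by norm_num

theorem nmZ (z : Gi) : (nm z : ℤ) = z.re ^ 2 + z.im ^ 2 := by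
  rw [nm_cast hD]; ring

theorem nmR (z : Gi) : (nm z : ℝ) = (z.re : ℝ) ^ 2 + (z.im : ℝ) ^ 2 := by
  rw [nm_castR hD]; push_cast; ring

theorem mre (z w : Gi) : (z * w).re = z.re * w.re - z.im * w.im := by
  rw [QuadraticAlgebra.re_mul]; ring

theorem mim (z w : Gi) : (z * w).im = z.re * w.im + z.im * w.re := by
  rw [QuadraticAlgebra.im_mul]; ring

/-- the isomorphism with the Gaussian integers of the library -/
def eqv : Gi ≃+* GaussianInt where
  toFun z := ⟨z.re, z.im⟩
  invFun z := ⟨z.re, z.im⟩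
  left_inv _ := rfl
  right_inv _ := rfl
  map_mul' z w := by
    apply Zsqrtd.ext
    · show (z * w).re = _
      rw [mre, Zsqrtd.re_mul]
      show z.re * w.re - z.im * w.im = z.re * w.re + -1 * z.im * w.im
      ring
    · show (z * w).im = _
      rw [mim, Zsqrtd.im_mul]
  map_add' z w := by
    apply Zsqrtd.ext
    · show (z + w).re = _
      rw [QuadraticAlgebra.re_add, Zsqrtd.re_add]
    · show (z + w).im = _
      rw [QuadraticAlgebra.im_add, Zsqrtd.im_add]

instance dom : IsDomain Gi := eqv.toMulEquiv.isDomain _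

instance pid : IsPrincipalIdealRing Gi :=
  IsPrincipalIdealRing.of_surjective eqv.symm.toRingHom eqv.symm.surjective

instance ufm : UniqueFactorizationMonoid Gi := PrincipalIdealRing.to_uniqueFactorizationMonoid

theorem nm_one : nm (1 : Gi) = 1 := by decide

theorem unit_nm {u : Gi} (h : IsUnit u) : nm u = 1 := by
  obtain ⟨v, hv⟩ := isUnit_iff_exists_inv.1 h
  have h1 : nm u * nm v = 1 := by rw [← nm_mul, hv, nm_one]
  exact Nat.eq_one_of_mul_eq_one_right h1

theorem nm_unit {u : Gi} (h : nm u = 1) : IsUnit u := by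
  have h1 := Pool.Agent.W78.GA.mul_star_self' hD u
  rw [h, Nat.cast_one] at h1
  exact IsUnit.of_mul_eq_one _ h1

theorem unit_cases {u : Gi} (h : nm u = 1) : u = ⟨1, 0⟩ ∨ u = ⟨0, 1⟩ ∨ u = ⟨-1, 0⟩ ∨ u = ⟨0, -1⟩ := by
  have h1 := nmZ u
  rw [h] at h1
  push_cast at h1
  have hre : -1 ≤ u.re ∧ u.re ≤ 1 := by constructor <;> nlinarith [sq_nonneg u.im]
  have him : -1 ≤ u.im ∧ u.im ≤ 1 := by constructor <;> nlinarith [sq_nonneg u.re]
  obtain ⟨a, b⟩ := u
  simp only at h1 hre him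
  have ha : a = -1 ∨ a = 0 ∨ a = 1 := by omega
  have hb : b = -1 ∨ b = 0 ∨ b = 1 := by omega
  rcases ha with rfl | rfl | rfl <;> rcases hb with rfl | rfl | rfl <;> simp at h1 ⊢

/-- every nonzero element has an associate in the first quadrant -/
theorem quad {z : Gi} (hz : z ≠ 0) : ∃ u : Gi, nm u = 1 ∧ 0 < (u * z).re ∧ 0 ≤ (u * z).im := by
  have h0 : z.re ≠ 0 ∨ z.im ≠ 0 := by
    by_contra h
    push Not at h
    exact hz (QuadraticAlgebra.ext h.1 h.2)
  have hc : (0 < z.re ∧ 0 ≤ z.im) ∨ (z.re ≤ 0 ∧ 0 < z.im) ∨ (z.re < 0 ∧ z.im ≤ 0) ∨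
      (0 ≤ z.re ∧ z.im < 0) := by omega
  rcases hc with h | h | h | h
  · exact ⟨1, nm_one, by rw [one_mul]; exact h.1, by rw [one_mul]; exact h.2⟩
  · refine ⟨⟨0, -1⟩, by decide, ?_, ?_⟩
    · rw [mre]; show 0 < 0 * z.re - -1 * z.im; linarith [h.2]
    · rw [mim]; show 0 ≤ 0 * z.im + -1 * z.re; linarith [h.1]
  · refine ⟨⟨-1, 0⟩, by decide, ?_, ?_⟩
    · rw [mre]; show 0 < -1 * z.re - 0 * z.im; linarith [h.1]
    · rw [mim]; show 0 ≤ -1 * z.im + 0 * z.re; linarith [h.2]
  · refine ⟨⟨0, 1⟩, by decide, ?_, ?_⟩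
    · rw [mre]; show 0 < 0 * z.re - 1 * z.im; linarith [h.2]
    · rw [mim]; show 0 ≤ 0 * z.im + 1 * z.re; linarith [h.1]

theorem pr1_of_prime {p : Gi} (hp : Prime p) : ∃ π u : Gi, Pr1 π ∧ nm u = 1 ∧ p = u * π := by
  obtain ⟨u, hu, h1, h2⟩ := quad hp.ne_zero
  have hU := nm_unit hu
  obtain ⟨v, hv⟩ := hU.exists_left_inv
  have hvu : nm v = 1 := by
    have h3 : nm v * nm u = 1 := by rw [← nm_mul, hv, nm_one]
    exact Nat.eq_one_of_mul_eq_one_right h3
  refine ⟨u * p, v, ⟨?_, h1, h2⟩, hvu, ?_⟩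
  · exact (associated_unit_mul_right p u hU).prime hp
  · rw [← mul_assoc, hv, one_mul]

theorem pr1_dvd {π π' : Gi} (h : Pr1 π) (h' : Pr1 π') (hd : π ∣ π') : π = π' := by
  obtain ⟨v, hv⟩ := hd
  have hirr := h'.1.irreducible
  have hvU : IsUnit v := by
    rcases hirr.isUnit_or_isUnit hv with h1 | h1
    · exact absurd h1 h.1.not_isUnit
    · exact h1
  have h1 := h.2
  have h2 := h'.2
  rw [hv] at h2 ⊢
  rw [mre, mim] at h2
  rcases unit_cases (unit_nm hvU) with rfl | rfl | rfl | rfl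
  · exact (mul_one π).symm
  · exfalso
    have h3 : 0 < π.re * 0 - π.im * 1 := h2.1
    linarith [h1.2]
  · exfalso
    have h3 : 0 < π.re * -1 - π.im * 0 := h2.1
    linarith [h1.1]
  · exfalso
    have h3 : 0 ≤ π.re * -1 + π.im * 0 := h2.2
    linarith [h1.1]

theorem two_le_nm {p : Gi} (hp : Prime p) : 2 ≤ nm p := by
  have h1 : 0 < nm p := nm_pos hD hp.ne_zero
  have h2 : nm p ≠ 1 := fun h => hp.not_isUnit (nm_unit h)
  omega

section

variable {f : Gi → ℝ}

theorem f_one (hf : CMR f) : f 1 = 1 := by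
  have h := hf.mul ⟨0, 1⟩ 1 (by decide) one_ne_zero
  rw [mul_one, hf.unit, one_mul] at h
  exact h.symm

theorem f_unit (hf : CMR f) {u : Gi} (hu : nm u = 1) : f u = 1 := by
  have h1 := f_one hf
  have h2 : f ⟨-1, 0⟩ = 1 := by
    have h := hf.mul ⟨0, 1⟩ ⟨0, 1⟩ (by decide) (by decide)
    rw [hf.unit, one_mul] at h
    exact h
  have h3 : f ⟨0, -1⟩ = 1 := by
    have h := hf.mul ⟨0, 1⟩ ⟨-1, 0⟩ (by decide) (by decide)
    rw [hf.unit, h2, one_mul] at h
    exact h
  rcases unit_cases hu with rfl | rfl | rfl | rfl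
  · exact h1
  · exact hf.unit
  · exact h2
  · exact h3

/-- the representation of `f` by the multiplicities -/
theorem f_prod (hf : CMR f) (z : Gi) (hz : z ≠ 0) : ∀ T : Finset Gi, (∀ π ∈ T, Pr1 π) →
    (∀ π, Pr1 π → π ∣ z → π ∈ T) → f z = ∏ π ∈ T, f π ^ multiplicity π z := by
  induction z using UniqueFactorizationMonoid.induction_on_prime with
  | h₁ => exact absurd rfl hz
  | h₂ x hx =>
    intro T hT _
    rw [f_unit hf (unit_nm hx)]
    refine (prod_eq_one fun π hπ => ?_).symm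
    rw [multiplicity_of_isUnit_right (hT π hπ).1.not_isUnit hx, pow_zero]
  | h₃ a p ha hp ih =>
    intro T hT hT'
    obtain ⟨π₀, u, hπ₀, hu, rfl⟩ := pr1_of_prime hp
    have hpT : π₀ ∈ T := hT' π₀ hπ₀ ((dvd_mul_left π₀ u).mul_right a)
    have hu0 : u ≠ 0 := by
      rintro rfl
      rw [nm_zero] at hu
      exact absurd hu (by norm_num)
    have hfp : f (u * π₀) = f π₀ := by
      rw [hf.mul u π₀ hu0 hπ₀.1.ne_zero, f_unit hf hu, one_mul]
    have hm : ∀ π ∈ T, multiplicity π (u * π₀ * a) =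
        (if π = π₀ then 1 else 0) + multiplicity π a := by
      intro π hπ
      have hpr := (hT π hπ).1
      rw [multiplicity_mul hpr (FiniteMultiplicity.of_prime_left hpr (mul_ne_zero hp.ne_zero ha))]
      congr 1
      by_cases h : π = π₀
      · subst h
        rw [if_pos rfl]
        have h3 : Associated (u * π) π := by
          rw [mul_comm]
          exact (associated_mul_unit_left π u (nm_unit hu))
        rw [multiplicity_eq_of_associated_right h3]
        exact multiplicity_self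
      · rw [if_neg h, multiplicity_eq_zero]
        intro hd
        rcases hpr.dvd_or_dvd hd with h4 | h4
        · exact hpr.not_isUnit (isUnit_of_dvd_unit h4 (nm_unit hu))
        · exact h (pr1_dvd (hT π hπ) hπ₀ h4)
    have hone : ∏ π ∈ T, f π ^ (if π = π₀ then 1 else 0) = f π₀ := by
      rw [prod_congr rfl fun π _ => (show f π ^ (if π = π₀ then 1 else 0) =
        if π = π₀ then f π else 1 by split_ifs <;> simp), prod_ite_eq' T π₀ f, if_pos hpT]
    calc f (u * π₀ * a) = f π₀ * ∏ π ∈ T, f π ^ multiplicity π a := by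
          rw [hf.mul _ _ hp.ne_zero ha, hfp]
          congr 1
          exact ih ha T hT fun π h1 h2 => hT' π h1 (h2.mul_left _)
      _ = (∏ π ∈ T, f π ^ (if π = π₀ then 1 else 0)) * ∏ π ∈ T, f π ^ multiplicity π a := by
          rw [hone]
      _ = ∏ π ∈ T, f π ^ multiplicity π (u * π₀ * a) := by
          rw [← prod_mul_distrib]
          exact prod_congr rfl fun π hπ => by rw [hm π hπ, pow_add]

end

end Pool.Agent.N713.MS
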