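import Pool.Agent.N713.MS.Ar

/-!
Project MS (helper912), part MS12, second file: counting in squares.
-/

set_option autoImplicit false

namespace Pool.Agent.N713.MS

open Finset Filter
open Pool.Agent.W78.GA (Qd nm ball mem_ball nm_cast nm_castR nm_mul nm_pow nm_zero nm_eq_zero nm_pos
  nm_posR one_le_nm)
open Pool.Agent.N912.MS (Gi CMR Pr1 sq bx2)

/-- residue classes in an interval -/
theorem count1 (m : ℕ) (hm : 0 < m) (a c : ℤ) (L : ℕ) :
    |(((range L).filter fun i : ℕ => (m : ℤ) ∣ a + i - c).card : ℝ) - L / m| ≤ 1 := by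
  have hm' : (0 : ℤ) < (m : ℤ) := by exact_mod_cast hm
  have h1 : ((range L).filter fun i : ℕ => (m : ℤ) ∣ a + i - c).card =
      ((Ico a (a + L)).filter fun x => x ≡ c [ZMOD m]).card := by
    refine card_nbij' (fun i => a + (i : ℤ)) (fun x => (x - a).toNat) ?_ ?_ ?_ ?_
    · intro i hi
      rw [mem_coe, mem_filter, mem_range] at hi
      rw [mem_coe, mem_filter, mem_Ico]
      refine ⟨⟨?_, ?_⟩, ?_⟩
      · show a ≤ a + (i : ℤ)
        omega
      · show a + (i : ℤ) < a + L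
        omega
      · rw [Int.modEq_comm, Int.modEq_iff_dvd]
        exact hi.2
    · intro x hx
      rw [mem_coe, mem_filter, mem_Ico] at hx
      rw [mem_coe, mem_filter, mem_range]
      have h3 : ((x - a).toNat : ℤ) = x - a := Int.toNat_of_nonneg (by omega)
      refine ⟨?_, ?_⟩
      · show (x - a).toNat < L
        omega
      have h2 := hx.2
      rw [Int.modEq_comm, Int.modEq_iff_dvd] at h2
      show (m : ℤ) ∣ a + ((x - a).toNat : ℤ) - c
      rw [h3]
      have h4 : a + (x - a) - c = x - c := by ring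
      rw [h4]
      exact h2
    · intro i hi
      simp
    · intro x hx
      rw [mem_coe, mem_filter, mem_Ico] at hx
      show a + ((x - a).toNat : ℤ) = x
      rw [Int.toNat_of_nonneg (by omega)]
      ring
  have h2 := Int.Ico_filter_modEq_card a (a + L) hm' c
  rw [h1]
  have hmq : (0 : ℚ) < (m : ℚ) := by exact_mod_cast hm
  set X : ℚ := (((a + L : ℤ) : ℚ) - (c : ℚ)) / ((m : ℤ) : ℚ) with hX
  set Y : ℚ := ((a : ℚ) - (c : ℚ)) / ((m : ℤ) : ℚ) with hY
  have hXY : X - Y = (L : ℚ) / m := by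
    rw [hX, hY]
    push_cast
    ring
  have e1 := Int.le_ceil X
  have e2 := Int.ceil_lt_add_one X
  have e3 := Int.le_ceil Y
  have e4 := Int.ceil_lt_add_one Y
  have hL0 : (0 : ℚ) ≤ (L : ℚ) / m := by positivity
  have hq : |((((Ico a (a + L)).filter fun x => x ≡ c [ZMOD m]).card : ℤ) : ℚ) - L / m| ≤ 1 := by
    rw [h2]
    rcases le_total (⌈X⌉ - ⌈Y⌉) 0 with h | h
    · rw [max_eq_right h]
      have h' : ((⌈X⌉ : ℚ)) - ⌈Y⌉ ≤ 0 := by exact_mod_cast h
      rw [abs_le]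
      constructor <;> push_cast <;> linarith
    · rw [max_eq_left h]
      push_cast
      rw [abs_le]
      constructor <;> linarith
  have hr : ((|((((Ico a (a + L)).filter fun x => x ≡ c [ZMOD m]).card : ℤ) : ℚ) - L / m| : ℚ) : ℝ)
      ≤ 1 := by exact_mod_cast hq
  push_cast at hr
  exact hr

/-- the multiples of a Gaussian integer -/
theorem dvd_struct (w : Gi) (hw : w ≠ 0) : ∃ (g M : ℕ) (e : ℤ), 0 < g ∧ 0 < M ∧ g * M = nm w ∧
    (∀ u : Gi, w ∣ u → (g : ℤ) ∣ u.im) ∧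
    ∀ (x k : ℤ), w ∣ (⟨x, g * k⟩ : Gi) ↔ (M : ℤ) ∣ x - k * e := by
  set g : ℕ := Int.gcd w.re w.im with hg
  have hg0 : 0 < g := by
    refine Nat.pos_of_ne_zero fun h => ?_
    rw [hg, Int.gcd_eq_zero_iff] at h
    exact hw (QuadraticAlgebra.ext h.1 h.2)
  have hgz : (g : ℤ) ≠ 0 := by exact_mod_cast hg0.ne'
  obtain ⟨a', ha'⟩ : (g : ℤ) ∣ w.re := Int.gcd_dvd_left ..
  obtain ⟨b', hb'⟩ : (g : ℤ) ∣ w.im := Int.gcd_dvd_right ..
  have hbez : ∃ s t : ℤ, a' * s + b' * t = 1 := by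
    refine ⟨Int.gcdA w.re w.im, Int.gcdB w.re w.im, ?_⟩
    have h := Int.gcd_eq_gcd_ab w.re w.im
    rw [← hg] at h
    have h1 : (g : ℤ) * (a' * Int.gcdA w.re w.im + b' * Int.gcdB w.re w.im) = g * 1 := by
      have h2 : (g : ℤ) * (a' * Int.gcdA w.re w.im + b' * Int.gcdB w.re w.im) =
          (g * a') * Int.gcdA w.re w.im + (g * b') * Int.gcdB w.re w.im := by ring
      rw [h2, ← ha', ← hb', ← h, mul_one]
    exact mul_left_cancel₀ hgz h1
  obtain ⟨s, t, hst⟩ := hbez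
  set N' : ℕ := (a' ^ 2 + b' ^ 2).toNat with hN'
  have hN'c : (N' : ℤ) = a' ^ 2 + b' ^ 2 := Int.toNat_of_nonneg (by positivity)
  have hN'0 : 0 < N' := by
    have h1 : (0 : ℤ) < N' := by
      rw [hN'c]
      by_contra h
      have ha0 : a' = 0 := by nlinarith [sq_nonneg a', sq_nonneg b']
      have hb0 : b' = 0 := by nlinarith [sq_nonneg a', sq_nonneg b']
      rw [ha0, hb0] at hst
      norm_num at hst
    exact_mod_cast h1
  have hM : ((g * N' : ℕ) : ℤ) = g * (a' ^ 2 + b' ^ 2) := by push_cast; rw [hN'c]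
  set e : ℤ := g * (a' * t - b' * s) with he
  -- integers
  have hint : ∀ n : ℤ, w ∣ (⟨n, 0⟩ : Gi) ↔ ((g * N' : ℕ) : ℤ) ∣ n := by
    intro n
    rw [hM]
    constructor
    · rintro ⟨v, hv⟩
      have h1 : n = w.re * v.re - w.im * v.im := by
        have := congrArg QuadraticAlgebra.re hv
        rw [mre] at this
        exact this
      have h2 : 0 = w.re * v.im + w.im * v.re := by
        have := congrArg QuadraticAlgebra.im hv
        rw [mim] at this
        exact this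
      rw [ha', hb'] at h1 h2
      have h3 : a' * v.im + b' * v.re = 0 := by
        have : (g : ℤ) * (a' * v.im + b' * v.re) = g * 0 := by linear_combination -h2
        exact mul_left_cancel₀ hgz this
      have h4 : n * a' = g * (a' ^ 2 + b' ^ 2) * v.re := by
        rw [h1]
        linear_combination (-(g : ℤ) * b') * h3
      have h5 : n * b' = -(g * (a' ^ 2 + b' ^ 2) * v.im) := by
        rw [h1]
        linear_combination ((g : ℤ) * a') * h3
      refine ⟨v.re * s - v.im * t, ?_⟩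
      calc n = n * (a' * s + b' * t) := by rw [hst, mul_one]
        _ = (n * a') * s + (n * b') * t := by ring
        _ = _ := by rw [h4, h5]; ring
    · rintro ⟨k, rfl⟩
      refine ⟨⟨a' * k, -(b' * k)⟩, QuadraticAlgebra.ext ?_ ?_⟩
      · rw [mre, ha', hb']
        ring
      · rw [mim, ha', hb']
        ring
  have hwe : ∀ k : ℤ, w ∣ (⟨k * e, g * k⟩ : Gi) := by
    intro k
    refine ⟨⟨t * k, s * k⟩, QuadraticAlgebra.ext ?_ ?_⟩
    · rw [mre, ha', hb', he]
      ring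
    · rw [mim, ha', hb']
      linear_combination (-(g : ℤ) * k) * hst
  refine ⟨g, g * N', e, hg0, Nat.mul_pos hg0 hN'0, ?_, ?_, ?_⟩
  · have h1 : ((g * (g * N') : ℕ) : ℤ) = (nm w : ℤ) := by
      rw [nmZ, ha', hb']
      push_cast
      rw [hN'c]
      ring
    exact_mod_cast h1
  · rintro u ⟨v, rfl⟩
    rw [mim, ha', hb']
    exact ⟨a' * v.im + b' * v.re, by ring⟩
  · intro x k
    rw [← hint]
    have h1 : (⟨x, g * k⟩ : Gi) = ⟨x - k * e, 0⟩ + ⟨k * e, g * k⟩ := by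
      apply QuadraticAlgebra.ext
      · rw [QuadraticAlgebra.re_add]; ring
      · rw [QuadraticAlgebra.im_add]; ring
    rw [h1]
    exact (dvd_add_left (hwe k))

/-- sums over squares -/
theorem sum_sq (F : Gi → ℝ) (z : Gi) (L : ℕ) : ∑ u ∈ sq z L, F u =
    ∑ p ∈ range L ×ˢ range L, F ⟨z.re + p.1, z.im + p.2⟩ := by
  unfold Pool.Agent.N912.MS.sq
  rw [sum_image]
  intro p _ q _ h
  have h1 : z.re + (p.1 : ℤ) = z.re + q.1 := congrArg QuadraticAlgebra.re h
  have h2 : z.im + (p.2 : ℤ) = z.im + q.2 := congrArg QuadraticAlgebra.im h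
  exact Prod.ext (by omega) (by omega)

open scoped Classical in
/-- the multiples of `w` in a square -/
theorem count2 (w : Gi) (hw : w ≠ 0) (z : Gi) (L : ℕ) :
    |∑ u ∈ sq z L, (if w ∣ u then (1 : ℝ) else 0) - (L : ℝ) ^ 2 / nm w| ≤ 2 * L := by
  obtain ⟨g, M, e, hg, hM, hgM, h1, h2⟩ := dvd_struct w hw
  have hgR : (0 : ℝ) < g := by exact_mod_cast hg
  have hMR : (0 : ℝ) < M := by exact_mod_cast hM
  have hM1 : (1 : ℝ) ≤ M := by exact_mod_cast hM
  rw [sum_sq, sum_product_right]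
  set D : Finset ℕ := (range L).filter fun j : ℕ => (g : ℤ) ∣ z.im + j - 0 with hDd
  have hcD := count1 g hg z.im 0 L
  rw [← hDd] at hcD
  have hDL : (D.card : ℝ) ≤ L := by
    have h3 : D.card ≤ L := by
      calc D.card ≤ (range L).card := card_filter_le _ _
        _ = L := card_range L
    exact_mod_cast h3
  have hin : ∀ j ∈ range L, ∑ i ∈ range L,
      (if w ∣ (⟨z.re + (i : ℤ), z.im + (j : ℤ)⟩ : Gi) then (1 : ℝ) else 0) =
      if j ∈ D then ∑ i ∈ range L,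
        (if w ∣ (⟨z.re + (i : ℤ), z.im + (j : ℤ)⟩ : Gi) then (1 : ℝ) else 0) else 0 := by
    intro j hj
    by_cases hjD : j ∈ D
    · rw [if_pos hjD]
    · rw [if_neg hjD]
      refine sum_eq_zero fun i _ => if_neg fun h => hjD ?_
      rw [hDd, mem_filter]
      refine ⟨hj, ?_⟩
      rw [sub_zero]
      exact h1 _ h
  show |∑ j ∈ range L, ∑ i ∈ range L,
      (if w ∣ (⟨z.re + (i : ℤ), z.im + (j : ℤ)⟩ : Gi) then (1 : ℝ) else 0) -
        (L : ℝ) ^ 2 / nm w| ≤ 2 * L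
  rw [sum_congr rfl hin, ← sum_filter]
  have hf : (range L).filter (fun j => j ∈ D) = D := by
    ext j
    rw [mem_filter]
    exact ⟨fun h => h.2, fun h => ⟨(mem_filter.1 h).1, h⟩⟩
  rw [hf]
  have hrow : ∀ j ∈ D, |∑ i ∈ range L,
      (if w ∣ (⟨z.re + (i : ℤ), z.im + (j : ℤ)⟩ : Gi) then (1 : ℝ) else 0) - (L : ℝ) / M| ≤ 1 := by
    intro j hj
    obtain ⟨k, hk⟩ := (mem_filter.1 hj).2
    rw [sub_zero] at hk
    have h3 := count1 M hM z.re (k * e) L
    have h4 : ∑ i ∈ range L,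
        (if w ∣ (⟨z.re + (i : ℤ), z.im + (j : ℤ)⟩ : Gi) then (1 : ℝ) else 0) =
        (((range L).filter fun i : ℕ => (M : ℤ) ∣ z.re + i - k * e).card : ℝ) := by
      rw [card_filter]
      push_cast
      refine sum_congr rfl fun i _ => ?_
      rw [hk]
      by_cases h5 : (M : ℤ) ∣ z.re + i - k * e
      · rw [if_pos h5, if_pos ((h2 _ _).2 h5)]
      · rw [if_neg h5, if_neg fun h6 => h5 ((h2 _ _).1 h6)]
    rw [h4]
    exact h3
  have hnm : (nm w : ℝ) = g * M := by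
    rw [← hgM]; push_cast; ring
  calc |∑ j ∈ D, ∑ i ∈ range L,
        (if w ∣ (⟨z.re + (i : ℤ), z.im + (j : ℤ)⟩ : Gi) then (1 : ℝ) else 0) -
          (L : ℝ) ^ 2 / nm w|
      = |∑ j ∈ D, (∑ i ∈ range L,
          (if w ∣ (⟨z.re + (i : ℤ), z.im + (j : ℤ)⟩ : Gi) then (1 : ℝ) else 0) - (L : ℝ) / M) +
          (D.card - (L : ℝ) / g) * ((L : ℝ) / M)| := by
        congr 1
        rw [sum_sub_distrib, sum_const, nsmul_eq_mul, hnm]
        field_simp
        ring
    _ ≤ ∑ j ∈ D, (1 : ℝ) + 1 * ((L : ℝ) / M) := by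
        refine (abs_add_le _ _).trans (add_le_add ?_ ?_)
        · exact (abs_sum_le_sum_abs _ _).trans (sum_le_sum hrow)
        · rw [abs_mul, abs_of_nonneg (by positivity : (0 : ℝ) ≤ (L : ℝ) / M)]
          exact mul_le_mul_of_nonneg_right hcD (by positivity)
    _ ≤ 2 * L := by
        rw [sum_const, nsmul_eq_mul, mul_one, one_mul]
        have h6 : (L : ℝ) / M ≤ L := div_le_self (Nat.cast_nonneg _) hM1
        linarith

theorem mem_bx2 {R : ℕ} {z : Gi} : z ∈ bx2 R ↔ |z.re| ≤ R ∧ |z.im| ≤ R := by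
  unfold bx2
  rw [mem_image]
  constructor
  · rintro ⟨p, hp, rfl⟩
    rw [mem_product, mem_Icc, mem_Icc] at hp
    exact ⟨abs_le.2 hp.1, abs_le.2 hp.2⟩
  · rintro ⟨h1, h2⟩
    exact ⟨(z.re, z.im), mem_product.2 ⟨mem_Icc.2 (abs_le.1 h1), mem_Icc.2 (abs_le.1 h2)⟩, rfl⟩

theorem card_bx2 (R : ℕ) : (bx2 R).card = (2 * R + 1) ^ 2 := by
  unfold bx2
  rw [card_image_of_injOn, card_product, Int.card_Icc]
  · have : ((R : ℤ) + 1 - -(R : ℤ)).toNat = 2 * R + 1 := by omega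
    rw [this]
    ring
  · intro p _ q _ h
    have h1 : p.1 = q.1 := congrArg QuadraticAlgebra.re h
    have h2 : p.2 = q.2 := congrArg QuadraticAlgebra.im h
    exact Prod.ext h1 h2

theorem nm_le_bx2 {R : ℕ} {z : Gi} (h : z ∈ bx2 R) : nm z ≤ 2 * R ^ 2 := by
  obtain ⟨h1, h2⟩ := mem_bx2.1 h
  have h3 : (nm z : ℤ) ≤ 2 * (R : ℤ) ^ 2 := by
    rw [nmZ]
    have h4 := sq_le_sq' (abs_le.1 h1).1 (abs_le.1 h1).2
    have h5 := sq_le_sq' (abs_le.1 h2).1 (abs_le.1 h2).2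
    linarith
  exact_mod_cast h3

open scoped Classical in
/-- the multiples of `w` in a box -/
theorem count3 (w : Gi) (hw : w ≠ 0) (R : ℕ) :
    (((bx2 R).filter fun u => u ≠ 0 ∧ w ∣ u).card : ℝ) ≤ 18 * (R : ℝ) ^ 2 / nm w := by
  have hN : 0 < nm w := nm_pos hD hw
  have hNR : (0 : ℝ) < nm w := by exact_mod_cast hN
  rcases Finset.eq_empty_or_nonempty ((bx2 R).filter fun u => u ≠ 0 ∧ w ∣ u) with he | ⟨u₀, hu₀⟩
  · rw [he, card_empty, Nat.cast_zero]
    positivity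
  set T : ℕ := 2 * R ^ 2 / nm w with hT
  set s : ℕ := Nat.sqrt T with hs
  have hT1 : 1 ≤ T := by
    rw [mem_filter] at hu₀
    obtain ⟨h1, h2, v, rfl⟩ := hu₀
    rw [hT, Nat.one_le_div_iff hN]
    have hv : v ≠ 0 := right_ne_zero_of_mul h2
    have h3 := nm_le_bx2 h1
    rw [nm_mul] at h3
    have h4 : 0 < nm v := nm_pos hD hv
    nlinarith
  have hs1 : 1 ≤ s := by
    rw [hs, Nat.le_sqrt]
    simpa using hT1
  have hsub : ((bx2 R).filter fun u => u ≠ 0 ∧ w ∣ u) ⊆ (bx2 s).image fun v => w * v := by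
    intro u hu
    rw [mem_filter] at hu
    obtain ⟨h1, h2, v, rfl⟩ := hu
    rw [mem_image]
    refine ⟨v, ?_, rfl⟩
    have h3 := nm_le_bx2 h1
    rw [nm_mul] at h3
    have h4 : nm v ≤ T := by
      rw [hT, Nat.le_div_iff_mul_le hN, mul_comm]
      exact h3
    have h5 : ∀ x : ℤ, x ^ 2 ≤ (nm v : ℤ) → |x| ≤ (s : ℤ) := by
      intro x hx
      have h6 : x.natAbs ≤ s := by
        rw [hs, Nat.le_sqrt]
        have h7 : ((x.natAbs * x.natAbs : ℕ) : ℤ) ≤ (T : ℤ) := by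
          push_cast
          rw [abs_mul_abs_self, ← pow_two]
          exact hx.trans (by exact_mod_cast h4)
        exact_mod_cast h7
      rw [← Int.natCast_natAbs]
      exact_mod_cast h6
    have h6 := nmZ v
    exact mem_bx2.2 ⟨h5 _ (by rw [h6]; nlinarith [sq_nonneg v.im]),
      h5 _ (by rw [h6]; nlinarith [sq_nonneg v.re])⟩
  have hc : ((bx2 R).filter fun u => u ≠ 0 ∧ w ∣ u).card ≤ (2 * s + 1) ^ 2 :=
    (card_le_card hsub).trans (card_image_le.trans (card_bx2 s).le)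
  have hc' : (((bx2 R).filter fun u => u ≠ 0 ∧ w ∣ u).card : ℝ) ≤ (2 * (s : ℝ) + 1) ^ 2 := by
    exact_mod_cast hc
  have hs2 : (s : ℝ) * s ≤ T := by
    have : s * s ≤ T := Nat.sqrt_le T
    exact_mod_cast this
  have hs1R : (1 : ℝ) ≤ s := by exact_mod_cast hs1
  have hTR : (T : ℝ) ≤ 2 * (R : ℝ) ^ 2 / nm w := by
    have h3 : ((2 * R ^ 2 / nm w : ℕ) : ℝ) ≤ ((2 * R ^ 2 : ℕ) : ℝ) / (nm w : ℝ) :=
      Nat.cast_div_le
    rw [hT]
    push_cast at h3
    exact h3
  calc (((bx2 R).filter fun u => u ≠ 0 ∧ w ∣ u).card : ℝ) ≤ (2 * (s : ℝ) + 1) ^ 2 := hc'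
    _ ≤ 9 * T := by nlinarith
    _ ≤ 9 * (2 * (R : ℝ) ^ 2 / nm w) := by linarith
    _ = 18 * (R : ℝ) ^ 2 / nm w := by ring

/-- sums over the squares of a box -/
theorem sum_box (F : Gi → ℝ) (hF : ∀ z, 0 ≤ F z) (R L : ℕ) :
    ∑ z ∈ bx2 R, ∑ u ∈ sq z L, F u ≤ (L : ℝ) ^ 2 * ∑ u ∈ bx2 (R + L), F u := by
  calc ∑ z ∈ bx2 R, ∑ u ∈ sq z L, F u
      = ∑ p ∈ range L ×ˢ range L, ∑ z ∈ bx2 R, F ⟨z.re + (p.1 : ℤ), z.im + (p.2 : ℤ)⟩ := by
        rw [sum_comm]
        exact sum_congr rfl fun z _ => sum_sq F z L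
    _ ≤ ∑ p ∈ range L ×ˢ range L, ∑ u ∈ bx2 (R + L), F u := by
        refine sum_le_sum fun p hp => ?_
        rw [mem_product, mem_range, mem_range] at hp
        have h1 : ∑ z ∈ bx2 R, F ⟨z.re + (p.1 : ℤ), z.im + (p.2 : ℤ)⟩ =
            ∑ u ∈ (bx2 R).image (fun z : Gi => (⟨z.re + (p.1 : ℤ), z.im + (p.2 : ℤ)⟩ : Gi)),
              F u := by
          rw [sum_image]
          intro z _ w _ h
          have h2 : z.re + (p.1 : ℤ) = w.re + p.1 := congrArg QuadraticAlgebra.re h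
          have h3 : z.im + (p.2 : ℤ) = w.im + p.2 := congrArg QuadraticAlgebra.im h
          exact QuadraticAlgebra.ext (by omega) (by omega)
        rw [h1]
        refine sum_le_sum_of_subset_of_nonneg ?_ fun u _ _ => hF u
        intro u hu
        obtain ⟨z, hz, rfl⟩ := mem_image.1 hu
        obtain ⟨h2, h3⟩ := mem_bx2.1 hz
        rw [abs_le] at h2 h3
        rw [mem_bx2, abs_le, abs_le]
        push_cast
        refine ⟨⟨?_, ?_⟩, ?_, ?_⟩
        · show -((R : ℤ) + L) ≤ z.re + p.1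
          omega
        · show z.re + (p.1 : ℤ) ≤ (R : ℤ) + L
          omega
        · show -((R : ℤ) + L) ≤ z.im + p.2
          omega
        · show z.im + (p.2 : ℤ) ≤ (R : ℤ) + L
          omega
    _ = (L : ℝ) ^ 2 * ∑ u ∈ bx2 (R + L), F u := by
        rw [sum_const, card_product, card_range, nsmul_eq_mul]
        push_cast
        ring

theorem card_sq (z : Gi) (L : ℕ) : (sq z L).card = L ^ 2 := by
  unfold Pool.Agent.N912.MS.sq
  rw [card_image_of_injOn, card_product, card_range, pow_two]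
  intro p _ q _ h
  have h1 : z.re + (p.1 : ℤ) = z.re + q.1 := congrArg QuadraticAlgebra.re h
  have h2 : z.im + (p.2 : ℤ) = z.im + q.2 := congrArg QuadraticAlgebra.im h
  exact Prod.ext (by omega) (by omega)

end Pool.Agent.N713.MS
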